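import Pool.Agent.Y492.AL.Stm2
import Pool.Agent.H973R3.NC.DV

/-!
# Project AL, job AL-EXP: expansion of the local connection probabilities at the critical point
-/

namespace Pool.Agent.Y304.AL

open H974 H12S H973N Finset Pool.Agent.Y492.AL

/-! ### The event `cn e` -/

theorem cn_mono' (e : Edg) : ∀ F G : Finset Edg, F ⊆ G → cn e F → cn e G := by
  intro F G h hF
  unfold cn at hF ⊢
  refine hF.mono ?_
  exact_mod_cast Finset.erase_subset_erase e h

theorem cn_insert (e : Edg) (F : Finset Edg) : cn e (insert e F) ↔ cn e F := by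
  unfold cn
  have : (insert e F).erase e = F.erase e := by
    ext x
    simp only [mem_erase, mem_insert]
    tauto
  rw [this]

theorem cn_erase (e : Edg) (F : Finset Edg) : cn e (F.erase e) ↔ cn e F := by
  unfold cn
  rw [Finset.erase_idem]

theorem Pf_self (e : Edg) (F : Finset Edg) : ¬ Pf (cn e) e F := by
  rintro ⟨h1, h2⟩
  rw [cn_insert] at h1
  rw [cn_erase] at h2
  exact h2 h1

theorem SD_self (e f : Edg) (F : Finset Edg) : ¬ SD (cn e) f e F := by
  rintro ⟨-, h | h, -⟩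
  · exact Pf_self e _ h
  · exact Pf_self e _ h

theorem PQ_Pf_self (q : ℝ) (S : Finset Edg) (e : Edg) : PQ q S (Pf (cn e) e) = 0 := by
  have h := Ex_congr (p := fun _ : Edg => q) (S := S) (f := fun F => ind (Pf (cn e) e F))
    (g := fun _ => 0) (fun F _ => ind_not_of (Pf_self e F))
  show Ex _ _ _ = 0
  rw [h]
  unfold Ex
  simp

theorem PQ_SD_self (q : ℝ) (S : Finset Edg) (e f : Edg) : PQ q S (SD (cn e) f e) = 0 := by
  have h := Ex_congr (p := fun _ : Edg => q) (S := S) (f := fun F => ind (SD (cn e) f e F))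
    (g := fun _ => 0) (fun F _ => ind_not_of (SD_self e f F))
  show Ex _ _ _ = 0
  rw [h]
  unfold Ex
  simp

/-! ### The averages -/

/-- edges of the box with direction `b` -/
noncomputable def core (b : Bool) (m : ℕ) : Finset Edg := (boxE m).filter (fun e => e.2.2 = b)

theorem core_sub (b : Bool) (m : ℕ) : core b m ⊆ boxE m := Finset.filter_subset _ _

theorem core_card (b : Bool) (m : ℕ) : m ^ 2 ≤ (core b m).card := by
  have h1 : ((Finset.range m ×ˢ Finset.range m).image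
      (fun p : ℕ × ℕ => (((p.1 : ℤ), (p.2 : ℤ), b) : Edg))).card = m ^ 2 := by
    rw [Finset.card_image_of_injective]
    · simp [sq]
    · rintro ⟨x, y⟩ ⟨x', y'⟩ h
      simp only [Prod.mk.injEq, Nat.cast_inj, and_true] at h
      exact Prod.ext h.1 h.2
  rw [← h1]
  apply Finset.card_le_card
  intro e he
  simp only [Finset.mem_image, Finset.mem_product, Finset.mem_range] at he
  obtain ⟨⟨x, y⟩, ⟨hx, hy⟩, rfl⟩ := he
  refine Finset.mem_filter.2 ⟨?_, rfl⟩
  unfold boxE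
  simp only at hx hy
  cases b
  · simp only [mem_RE_false]; omega
  · simp only [mem_RE_true]; omega

theorem blk_sub {m : ℕ} (hm : 1 ≤ m) {e : Edg} (he : e ∈ boxE m) :
    blk (bp e) (3 * m) ⊆ boxE (4 * m) := by
  obtain ⟨x, y, c⟩ := e
  unfold boxE at he ⊢
  unfold blk bp
  have hxy : -(m:ℤ) ≤ x ∧ x ≤ m ∧ -(m:ℤ) ≤ y ∧ y ≤ m := by
    cases c
    · simp only [mem_RE_false] at he; omega
    · simp only [mem_RE_true] at he; omega
  rintro ⟨x', y', _ | _⟩ h8
  · simp only [mem_RE_false] at h8 ⊢; push_cast at h8 ⊢; omega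
  · simp only [mem_RE_true] at h8 ⊢; push_cast at h8 ⊢; omega

/-- near edges -/
noncomputable def nr (m R : ℕ) (e : Edg) : Finset Edg :=
  (boxE (4 * m)).filter (fun f => f ≠ e ∧ dst e f ≤ R)

/-- far edges -/
noncomputable def fr (m R : ℕ) (e : Edg) : Finset Edg :=
  (boxE (4 * m)).filter (fun f => (R:ℤ) < dst e f)

/-- splitting of the derivative -/
theorem split_sum (q : ℝ) (m R : ℕ) (e : Edg) :
    ∑ f ∈ boxE (4 * m), PQ q (boxE (4 * m)) (Pf (cn e) f) =
      ∑ f ∈ nr m R e, PQ q (boxE (4 * m)) (Pf (cn e) f) +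
      ∑ f ∈ fr m R e, PQ q (boxE (4 * m)) (Pf (cn e) f) := by
  rw [← Finset.sum_filter_add_sum_filter_not (boxE (4 * m)) (fun f => (R:ℤ) < dst e f), add_comm]
  congr 1
  unfold nr
  symm
  apply Finset.sum_subset
  · intro f hf
    simp only [Finset.mem_filter] at hf ⊢
    exact ⟨hf.1, not_lt.2 hf.2.2⟩
  · intro f hf hf'
    simp only [Finset.mem_filter, not_and, not_le] at hf hf'
    by_cases h : f = e
    · rw [h]; exact PQ_Pf_self _ _ _
    · exact absurd (hf' hf.1 h) hf.2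

/-- the average -/
noncomputable def hh' (b : Bool) (m : ℕ) (q : ℝ) : ℝ :=
  (∑ e ∈ core b m, PQ q (boxE (4 * m)) (cn e)) / (core b m).card

/-- the near part of the derivative -/
noncomputable def AA (b : Bool) (m R : ℕ) (q : ℝ) : ℝ :=
  (∑ e ∈ core b m, ∑ f ∈ nr m R e, PQ q (boxE (4 * m)) (Pf (cn e) f)) / (core b m).card

/-- the far part of the derivative -/
noncomputable def BB (b : Bool) (m R : ℕ) (q : ℝ) : ℝ :=
  (∑ e ∈ core b m, ∑ f ∈ fr m R e, PQ q (boxE (4 * m)) (Pf (cn e) f)) / (core b m).card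

theorem deriv_h (b : Bool) (m R : ℕ) (q : ℝ) :
    HasDerivAt (hh' b m) (AA b m R q + BB b m R q) q := by
  have h1 : HasDerivAt (fun q : ℝ => ∑ e ∈ core b m, PQ q (boxE (4 * m)) (cn e))
      (∑ e ∈ core b m, ∑ f ∈ boxE (4 * m), PQ q (boxE (4 * m)) (Pf (cn e) f)) q :=
    HasDerivAt.fun_sum fun e _ => deriv_f (boxE (4 * m)) (cn e) (cn_mono' e) q
  have h2 := h1.div_const ((core b m).card : ℝ)
  have h3 : (∑ e ∈ core b m, ∑ f ∈ boxE (4 * m), PQ q (boxE (4 * m)) (Pf (cn e) f)) /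
      ((core b m).card : ℝ) = AA b m R q + BB b m R q := by
    unfold AA BB
    rw [← add_div, ← Finset.sum_add_distrib]
    congr 1
    exact Finset.sum_congr rfl fun e _ => split_sum q m R e
  rw [h3] at h2
  exact h2

theorem card_pos {b : Bool} {m : ℕ} (hm : 1 ≤ m) : (0:ℝ) < (core b m).card := by
  have h := core_card b m
  have : 0 < m ^ 2 := by positivity
  exact_mod_cast lt_of_lt_of_le this h

theorem card_ge {b : Bool} {m : ℕ} : (m:ℝ) ^ 2 ≤ (core b m).card := by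
  exact_mod_cast core_card b m

/-- division by the number of edges -/
theorem div_card {b : Bool} {m : ℕ} (hm : 1 ≤ m) {s C t : ℝ} (hC : 0 ≤ C) (ht : 0 ≤ t)
    (hs : s ≤ C * (m:ℝ) ^ 2 * t) : s / (core b m).card ≤ C * t := by
  have h0 := card_pos (b := b) hm
  rw [div_le_iff₀ h0]
  calc s ≤ C * (m:ℝ) ^ 2 * t := hs
    _ = C * t * (m:ℝ) ^ 2 := by ring
    _ ≤ C * t * (core b m).card := mul_le_mul_of_nonneg_left card_ge (mul_nonneg hC ht)

theorem PQ_nn {q : ℝ} (h0 : 0 ≤ q) (h1 : q ≤ 1) (S : Finset Edg) (A : Finset Edg → Prop) :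
    0 ≤ PQ q S A := Pr_nonneg (okq h0 h1) _ _

theorem exp_gl : S_GL → S_ANA → S_A4 → S_MA → S_MB → S_EXP := by
  intro hGL hANA hA4 hMA hMB b
  obtain ⟨C0, hC0, hA4'⟩ := hA4
  obtain ⟨g1, g2, g3⟩ := hGL C0 hC0 hA4'
  obtain ⟨C1, hC1, hMA'⟩ := hMA
  obtain ⟨C2, β, hC2, hβ, hβ4, hMB'⟩ := hMB
  refine hANA (hh' b) (gl b) (AA b) (BB b) (fun m R q => deriv (AA b m R) q) (C0 + C1 + C2) β
    (by positivity) hβ hβ4 (g2 b) ?_ ?_ ?_ ?_
  · -- approximation
    intro m hm q h0 h1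
    have hN := card_pos (b := b) hm
    have hm0 : (0:ℝ) < m := by exact_mod_cast hm
    have hk : ∀ e ∈ core b m, |PQ q (boxE (4 * m)) (cn e) - gl b q| ≤
        C0 * (m:ℝ) ^ (-(5/4 : ℝ)) := by
      intro e he
      have he1 := core_sub b m he
      have he2 : e.2.2 = b := (Finset.mem_filter.1 he).2
      have := g3 q h0 h1 e (3 * m) (boxE (4 * m)) (by omega) (blk_sub hm he1)
      rw [he2] at this
      refine this.trans ?_
      apply mul_le_mul_of_nonneg_left _ hC0.le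
      apply Real.rpow_le_rpow_of_nonpos hm0 _ (by norm_num)
      push_cast
      linarith
    have e1 : hh' b m q - gl b q =
        (∑ e ∈ core b m, (PQ q (boxE (4 * m)) (cn e) - gl b q)) / (core b m).card := by
      unfold hh'
      rw [Finset.sum_sub_distrib, Finset.sum_const, nsmul_eq_mul]
      field_simp
    rw [e1, abs_div, abs_of_pos hN, div_le_iff₀ hN]
    calc |∑ e ∈ core b m, (PQ q (boxE (4 * m)) (cn e) - gl b q)|
        ≤ ∑ e ∈ core b m, |PQ q (boxE (4 * m)) (cn e) - gl b q| := Finset.abs_sum_le_sum_abs _ _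
      _ ≤ ∑ e ∈ core b m, C0 * (m:ℝ) ^ (-(5/4 : ℝ)) := Finset.sum_le_sum hk
      _ = C0 * (m:ℝ) ^ (-(5/4 : ℝ)) * (core b m).card := by
        rw [Finset.sum_const, nsmul_eq_mul]; ring
      _ ≤ _ := by
        apply mul_le_mul_of_nonneg_right _ hN.le
        apply mul_le_mul_of_nonneg_right _ (by positivity)
        linarith
  · -- derivative
    intro m R _ _ q _ _
    exact deriv_h b m R q
  · -- far part
    intro m R hR hRm q h0 h1
    have hm : 1 ≤ m := hR.trans hRm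
    have hnn : ∀ e f, 0 ≤ PQ q (boxE (4 * m)) (Pf (cn e) f) := fun e f => PQ_nn h0 h1 _ _
    have hB0 : 0 ≤ BB b m R q := div_nonneg (Finset.sum_nonneg fun e _ =>
      Finset.sum_nonneg fun f _ => hnn e f) (by positivity)
    rw [abs_of_nonneg hB0]
    have ht : (0:ℝ) ≤ (R:ℝ) ^ (-(1/2 : ℝ)) + (m:ℝ) ^ (-(1/4 : ℝ)) := by positivity
    have h2 : ∑ e ∈ core b m, ∑ f ∈ fr m R e, PQ q (boxE (4 * m)) (Pf (cn e) f) ≤
        C1 * (m:ℝ) ^ 2 * ((R:ℝ) ^ (-(1/2 : ℝ)) + (m:ℝ) ^ (-(1/4 : ℝ))) :=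
      (Finset.sum_le_sum_of_subset_of_nonneg (core_sub b m) fun e _ _ =>
        Finset.sum_nonneg fun f _ => hnn e f).trans (hMA' q h0 h1 m R hR hRm)
    refine (div_card hm hC1.le ht h2).trans ?_
    apply mul_le_mul_of_nonneg_right _ ht
    linarith
  · -- near part
    intro m R hR hRm q hq
    have hm : 1 ≤ m := hR.trans hRm
    have hR1 : (1:ℝ) ≤ R := by exact_mod_cast hR
    have hRp : (R:ℝ) ^ (-(3/4 : ℝ)) ≤ 1 := Real.rpow_le_one_of_one_le_of_nonpos hR1 (by norm_num)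
    have hq4 : |q - 1/2| ≤ 1/4 := by
      calc |q - 1/2| ≤ β * (R:ℝ) ^ (-(3/4 : ℝ)) := hq
        _ ≤ β * 1 := mul_le_mul_of_nonneg_left hRp hβ.le
        _ ≤ 1/4 := by linarith
    have hq5 := abs_le.1 hq4
    have h0 : 0 ≤ q := by linarith [hq5.1]
    have h1 : q ≤ 1 := by linarith [hq5.2]
    have hex : ∀ e : Edg, ∃ D : ℝ,
        HasDerivAt (fun q : ℝ => ∑ f ∈ nr m R e, PQ q (boxE (4 * m)) (Pf (cn e) f)) D q ∧
        |D| ≤ ∑ f ∈ nr m R e, ∑ g ∈ ((boxE (4 * m)).erase e).erase f,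
          PQ q (boxE (4 * m)) (SD (cn e) f g) := by
      intro e
      obtain ⟨D, hD, hD2⟩ := deriv_T (boxE (4 * m)) (nr m R e) (Finset.filter_subset _ _) (cn e)
        (cn_mono' e) q h0 h1
      refine ⟨D, hD, hD2.trans_eq ?_⟩
      apply Finset.sum_congr rfl
      intro f hf
      have hfe : f ≠ e := (Finset.mem_filter.1 hf).2.1
      rw [Finset.erase_right_comm]
      symm
      apply Finset.sum_subset (Finset.erase_subset _ _)
      intro g hg hg'
      have hge : g = e := by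
        by_contra h
        exact hg' (Finset.mem_erase.2 ⟨h, hg⟩)
      rw [hge]
      exact PQ_SD_self _ _ _ _
    choose D hD hD2 using hex
    have h3 : HasDerivAt (AA b m R) ((∑ e ∈ core b m, D e) / (core b m).card) q :=
      (HasDerivAt.fun_sum fun e _ => hD e).div_const _
    refine ⟨h3.differentiableAt.hasDerivAt, ?_⟩
    rw [h3.deriv, abs_div, abs_of_pos (card_pos (b := b) hm)]
    have ht : (0:ℝ) ≤ (R:ℝ) ^ (1/4 : ℝ) + (R:ℝ) ^ 2 * (m:ℝ) ^ (-(1/4 : ℝ)) := by positivity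
    have h4 : |∑ e ∈ core b m, D e| ≤
        C2 * (m:ℝ)^2 * ((R:ℝ) ^ (1/4 : ℝ) + (R:ℝ)^2 * (m:ℝ) ^ (-(1/4 : ℝ))) := by
      calc |∑ e ∈ core b m, D e| ≤ ∑ e ∈ core b m, |D e| := Finset.abs_sum_le_sum_abs _ _
        _ ≤ ∑ e ∈ core b m, ∑ f ∈ nr m R e, ∑ g ∈ ((boxE (4 * m)).erase e).erase f,
            PQ q (boxE (4 * m)) (SD (cn e) f g) := Finset.sum_le_sum fun e _ => hD2 e
        _ ≤ ∑ e ∈ boxE m, ∑ f ∈ nr m R e, ∑ g ∈ ((boxE (4 * m)).erase e).erase f,
            PQ q (boxE (4 * m)) (SD (cn e) f g) :=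
          Finset.sum_le_sum_of_subset_of_nonneg (core_sub b m) fun e _ _ =>
            Finset.sum_nonneg fun f _ => Finset.sum_nonneg fun g _ => PQ_nn h0 h1 _ _
        _ ≤ _ := hMB' m R hR hRm q hq
    refine (div_card hm hC2.le ht h4).trans ?_
    apply mul_le_mul_of_nonneg_right _ ht
    linarith

end Pool.Agent.Y304.AL
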